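import Pool.Agent.U166.HC.Fin

/-!
# The sublattice of the fixed vectors of an involution
-/

set_option autoImplicit false

namespace Pool.Agent.U166.HD

open Matrix Module
open Pool.Agent.H160R3.Herm
open Pool.Agent.R834.HA

/-- the splitting given by an endomorphism, with the bases -/
theorem endo_bases {n : ℕ} (T : (Fin n → ℤ) →ₗ[ℤ] (Fin n → ℤ)) :
    ∃ (a b : ℕ) (e : Fin a ⊕ Fin b ≃ Fin n) (K : Matrix (Fin n) (Fin a) ℤ)
      (R : Matrix (Fin n) (Fin b) ℤ),
      (Matrix.of fun i x => Sum.elim (fun j => K i j) (fun j => R i j) (e.symm x) :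
        Matrix (Fin n) (Fin n) ℤ).det.natAbs = (LinearMap.det (onRange T)).natAbs ∧
      (∀ v, T (K.mulVec v) = 0) ∧ (∀ x, T x = 0 → ∃ v, K.mulVec v = x) ∧
      (∀ j, ∃ z, T z = fun i => R i j) ∧
      (∀ v, K.mulVec v = 0 → v = 0) ∧ (∀ v, R.mulVec v = 0 → v = 0) ∧
      b = finrank ℤ (LinearMap.range T) := by
  classical
  set a := finrank ℤ (LinearMap.ker T) with ha
  set b := finrank ℤ (LinearMap.range T) with hb
  let bK : Basis (Fin a) ℤ (LinearMap.ker T) := Module.finBasis ℤ _
  let bR : Basis (Fin b) ℤ (LinearMap.range T) := Module.finBasis ℤ _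
  let bQ : Basis (Fin b) ℤ ((Fin n → ℤ) ⧸ LinearMap.ker T) := bR.map T.quotKerEquivRange.symm
  let W : Basis (Fin a ⊕ Fin b) ℤ (Fin n → ℤ) := Basis.sumQuot bK bQ
  let st : Basis (Fin n) ℤ (Fin n → ℤ) := Pi.basisFun ℤ (Fin n)
  let e : Fin a ⊕ Fin b ≃ Fin n := W.indexEquiv st
  have hTW : ∀ j, T (W (Sum.inr j)) = bR j := by
    intro j
    have h1 : Submodule.Quotient.mk (W (Sum.inr j)) = bQ j := Basis.sumQuot_inr bK bQ j
    have h2 : T.quotKerEquivRange (Submodule.Quotient.mk (W (Sum.inr j))) = bR j := by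
      rw [h1]
      simp [bQ]
    have h3 := congrArg Subtype.val h2
    exact h3
  let c : Fin a ⊕ Fin b → (Fin n → ℤ) := Sum.elim (fun i => (bK i : Fin n → ℤ)) (fun j => (bR j : Fin n → ℤ))
  let M : Matrix (Fin a ⊕ Fin b) (Fin a ⊕ Fin b) ℤ := W.toMatrix c
  have hM : M.det = LinearMap.det (onRange T) := by
    have e1 : M = Matrix.fromBlocks 1 M.toBlocks₁₂ 0 (LinearMap.toMatrix bR bR (onRange T)) := by
      ext x y
      rcases x with i | i <;> rcases y with j | j
      · have h1 : W.repr (bK j : Fin n → ℤ) = Finsupp.single (Sum.inl j) 1 :=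
          Basis.sumQuot_repr_left bK bQ j
        change W.repr (bK j : Fin n → ℤ) (Sum.inl i) = (1 : Matrix (Fin a) (Fin a) ℤ) i j
        rw [h1, Finsupp.single_apply, Matrix.one_apply]
        simp [eq_comm]
      · rfl
      · have h1 : W.repr (bK j : Fin n → ℤ) = Finsupp.single (Sum.inl j) 1 :=
          Basis.sumQuot_repr_left bK bQ j
        change W.repr (bK j : Fin n → ℤ) (Sum.inr i) = 0
        rw [h1, Finsupp.single_apply]
        simp
      · change W.repr (bR j : Fin n → ℤ) (Sum.inr i) = LinearMap.toMatrix bR bR (onRange T) i j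
        have h1 : W.repr (bR j : Fin n → ℤ) (Sum.inr i) =
            bQ.repr ((LinearMap.ker T).mkQ (bR j : Fin n → ℤ)) i := Basis.sumQuot_repr_inr bK bQ _ i
        rw [h1, LinearMap.toMatrix_apply]
        have h2 : bQ.repr ((LinearMap.ker T).mkQ (bR j : Fin n → ℤ)) =
            bR.repr (T.quotKerEquivRange ((LinearMap.ker T).mkQ (bR j : Fin n → ℤ))) := by
          simp [bQ]
        rw [h2]
        rfl
    rw [e1, Matrix.det_fromBlocks_zero₂₁, Matrix.det_one, one_mul, LinearMap.det_toMatrix]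
  let B : Matrix (Fin n) (Fin n) ℤ := fun i x => c (e.symm x) i
  have hB : B = st.toMatrix (W.reindex e) * M.submatrix e.symm e.symm := by
    ext i x
    have h1 := Basis.toMatrix_mul_toMatrix st W c
    have h2 : (st.toMatrix c) i (e.symm x) = (st.toMatrix W * W.toMatrix c) i (e.symm x) := by
      rw [h1]
    have h3 : (st.toMatrix c) i (e.symm x) = B i x := by
      simp [Basis.toMatrix_apply, st, B]
    rw [← h3, h2, Matrix.mul_apply, Matrix.mul_apply, ← Equiv.sum_comp e.symm]
    refine Finset.sum_congr rfl fun y _ => ?_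
    simp [Basis.toMatrix_apply, M]
  have hunit : IsUnit (st.toMatrix (W.reindex e)).det := by
    rw [← Basis.det_apply]
    exact st.isUnit_det (W.reindex e)
  let K : Matrix (Fin n) (Fin a) ℤ := fun i j => (bK j : Fin n → ℤ) i
  let R : Matrix (Fin n) (Fin b) ℤ := fun i j => (bR j : Fin n → ℤ) i
  have hKv : ∀ v : Fin a → ℤ, K.mulVec v = ((∑ i, v i • bK i : LinearMap.ker T) : Fin n → ℤ) := by
    intro v
    funext k
    simp only [Submodule.coe_sum, Finset.sum_apply, Submodule.coe_smul, Pi.smul_apply, smul_eq_mul]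
    rw [mulVec, dotProduct]
    exact Finset.sum_congr rfl fun i _ => mul_comm _ _
  have hRv : ∀ v : Fin b → ℤ, R.mulVec v = ((∑ i, v i • bR i : LinearMap.range T) : Fin n → ℤ) := by
    intro v
    funext k
    simp only [Submodule.coe_sum, Finset.sum_apply, Submodule.coe_smul, Pi.smul_apply, smul_eq_mul]
    rw [mulVec, dotProduct]
    exact Finset.sum_congr rfl fun i _ => mul_comm _ _
  refine ⟨a, b, e, K, R, ?_, ?_, ?_, ?_, ?_, ?_, hb⟩
  · have hBB : (Matrix.of fun i x => Sum.elim (fun j => K i j) (fun j => R i j) (e.symm x) :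
        Matrix (Fin n) (Fin n) ℤ) = B := by
      ext i x
      rcases h : e.symm x with j | j
      · change Sum.elim (fun j => K i j) (fun j => R i j) (e.symm x) = c (e.symm x) i
        rw [h]
        rfl
      · change Sum.elim (fun j => K i j) (fun j => R i j) (e.symm x) = c (e.symm x) i
        rw [h]
        rfl
    rw [hBB, hB, Matrix.det_mul, Matrix.det_submatrix_equiv_self, hM, Int.natAbs_mul,
      Int.isUnit_iff_natAbs_eq.1 hunit, one_mul]
  · intro v
    rw [hKv]
    exact (∑ i, v i • bK i : LinearMap.ker T).2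
  · intro x hx
    refine ⟨fun i => bK.repr ⟨x, hx⟩ i, ?_⟩
    rw [hKv, bK.sum_repr]
  · intro j
    exact (bR j).2
  · intro v hv
    rw [hKv] at hv
    have h1 : ∑ i, v i • bK i = 0 := Subtype.ext hv
    funext i
    exact Fintype.linearIndependent_iff.1 bK.linearIndependent v h1 i
  · intro v hv
    rw [hRv] at hv
    have h1 : ∑ i, v i • bR i = 0 := Subtype.ext hv
    funext i
    exact Fintype.linearIndependent_iff.1 bR.linearIndependent v h1 i

end Pool.Agent.U166.HD
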