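import Pool.Agent.U166.HD.Tr

/-!
# Estimates for the descent
-/

set_option autoImplicit false

namespace Pool.Agent.U166.HD

open Matrix Module Set
open Pool.Agent.H160R3.Herm
open Pool.Agent.R834.HA
open Pool.Agent.U166.HC

theorem fixed_transfer {n a : ℕ} {G : Type} [Group G] {ρ : G →* Matrix (Fin n) (Fin n) ℝ}
    {ρ' : G →* Matrix (Fin a) (Fin a) ℝ} {O : Matrix (Fin n) (Fin a) ℝ} (hOO : Oᵀ * O = 1)
    (hρ : ∀ g, ρ g * O = O * ρ' g) (H : Subgroup G)
    (hfix : ∀ x ∈ fixed ρ H, O.mulVec (Oᵀ.mulVec x) = x) :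
    finrank ℝ (fixed ρ' H) = finrank ℝ (fixed ρ H) := by
  have hO : ∀ y ∈ fixed ρ' H, O.mulVec y ∈ fixed ρ H := by
    intro y hy g hg
    rw [mulVec_mulVec, hρ, ← mulVec_mulVec, hy g hg]
  have hOt : ∀ x ∈ fixed ρ H, Oᵀ.mulVec x ∈ fixed ρ' H := by
    intro x hx g hg
    have h1 : ρ' g = Oᵀ * (ρ g * O) := by rw [hρ, ← Matrix.mul_assoc, hOO, Matrix.one_mul]
    rw [h1, mulVec_mulVec, Matrix.mul_assoc, Matrix.mul_assoc, ← mulVec_mulVec, ← mulVec_mulVec,
      ← mulVec_mulVec, hfix x hx, hx g hg]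
  let e : fixed ρ' H ≃ₗ[ℝ] fixed ρ H :=
    { toFun := fun y => ⟨O.mulVec y.1, hO y.1 y.2⟩
      map_add' := fun y z => Subtype.ext (by
        change O.mulVec (y.1 + z.1) = O.mulVec y.1 + O.mulVec z.1
        exact mulVec_add _ _ _)
      map_smul' := fun c y => Subtype.ext (by
        change O.mulVec (c • y.1) = c • O.mulVec y.1
        exact mulVec_smul _ _ _)
      invFun := fun x => ⟨Oᵀ.mulVec x.1, hOt x.1 x.2⟩
      left_inv := fun y => Subtype.ext (by
        change Oᵀ.mulVec (O.mulVec y.1) = y.1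
        rw [mulVec_mulVec, hOO, one_mulVec])
      right_inv := fun x => Subtype.ext (hfix x.1 x.2) }
  exact e.finrank_eq

theorem hermite_pow_le (b : ℕ) : hermite b ^ b ≤ (b : ℝ) ^ b := by
  rcases Nat.eq_zero_or_pos b with rfl | hb
  · simp
  · have h := ratio_le_one b
    have hb' : (0 : ℝ) < b := by exact_mod_cast hb
    rw [ratio, div_le_one hb'] at h
    exact pow_le_pow_left₀ (hermite_pos hb).le h b

/-- descent without loss -/
theorem no_loss {n a b : ℕ} {A : Matrix (Fin n) (Fin n) ℝ} {C : Matrix (Fin a) (Fin a) ℝ} {t : ℝ}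
    (ht : 0 < t) (ha : 0 < a) (hab : a + b = n) (hinv : t * n ≤ inv A) (hb : 4 * (b : ℝ) ≤ t * n)
    (h : inv A ^ n ≤ 4 ^ b * (inv C ^ a * hermite b ^ b)) : t * a ≤ inv C := by
  have hn : 0 < n := by omega
  have hn' : (0 : ℝ) < n := by exact_mod_cast hn
  have htn : 0 < t * n := by positivity
  have hC : 0 ≤ inv C ^ a := pow_nonneg (inv_nonneg C) a
  have h1 : (t * n) ^ a * (t * n) ^ b ≤ inv C ^ a * (t * n) ^ b := by
    calc (t * n) ^ a * (t * n) ^ b = (t * n) ^ n := by rw [← pow_add, hab]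
      _ ≤ inv A ^ n := pow_le_pow_left₀ htn.le hinv n
      _ ≤ 4 ^ b * (inv C ^ a * hermite b ^ b) := h
      _ ≤ 4 ^ b * (inv C ^ a * (b : ℝ) ^ b) := by
          apply mul_le_mul_of_nonneg_left _ (by positivity)
          exact mul_le_mul_of_nonneg_left (hermite_pow_le b) hC
      _ = inv C ^ a * (4 * (b : ℝ)) ^ b := by rw [mul_pow]; ring
      _ ≤ inv C ^ a * (t * n) ^ b := by
          apply mul_le_mul_of_nonneg_left _ hC
          exact pow_le_pow_left₀ (by positivity) hb b
  have h2 : (t * n) ^ a ≤ inv C ^ a := le_of_mul_le_mul_right h1 (by positivity)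
  have h3 : t * n ≤ inv C := le_of_pow_le_pow_left₀ ha.ne' (inv_nonneg C) h2
  have h4 : (a : ℝ) ≤ n := by exact_mod_cast (by omega : a ≤ n)
  exact (mul_le_mul_of_nonneg_left h4 ht.le).trans h3

theorem two_min_le {β : ℝ} (h0 : 0 ≤ β) (h1 : β ≤ 1) :
    2 * min (1 - β) β * Real.log 2 ≤ Real.binEntropy β := by
  rcases h0.eq_or_lt with rfl | h0
  · simp
  rcases h1.eq_or_lt with rfl | h1
  · simp
  by_cases h2 : β = 1 / 2
  · rw [h2, one_div, Real.binEntropy_two_inv]
    norm_num
  · exact (two_min_lt h0 h1 h2).le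

/-- descent to about half of the dimension -/
theorem half_loss {n a b : ℕ} {A : Matrix (Fin n) (Fin n) ℝ} {C : Matrix (Fin a) (Fin a) ℝ}
    {t t' U δ : ℝ} (ht : 0 < t) (ht' : 0 < t') (htU : t ≤ U) (hb : 0 < b) (ha : 0 < a)
    (hab : a + b = n) (h3 : n ≤ 3 * a) (hδ0 : 0 ≤ δ) (hδ : (b : ℝ) - a ≤ 2 * δ * n)
    (hherm : hermite b ≤ U * b)
    (hconst : 3 * (4 * δ * Real.log 2 + Real.log (U / t)) ≤ Real.log (t / t'))
    (hinv : t * n ≤ inv A)
    (h : inv A ^ n ≤ 4 ^ b * (inv C ^ a * hermite b ^ b)) : t' * a ≤ inv C := by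
  have hn : 0 < n := by omega
  have hn' : (0 : ℝ) < n := by exact_mod_cast hn
  have ha' : (0 : ℝ) < a := by exact_mod_cast ha
  have hb' : (0 : ℝ) < b := by exact_mod_cast hb
  have hU : 0 < U := lt_of_lt_of_le ht htU
  have hhb := hermite_pos hb
  have hApos : 0 < inv A := lt_of_lt_of_le (by positivity) hinv
  have hCpos : 0 < inv C := by
    rcases (inv_nonneg C).lt_or_eq with h0 | h0
    · exact h0
    · rw [← h0, zero_pow ha.ne', zero_mul, mul_zero] at h
      have : 0 < inv A ^ n := by positivity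
      linarith
  have hl2 : 0 < Real.log 2 := Real.log_pos (by norm_num)
  have e4 : Real.log 4 = 2 * Real.log 2 := by
    rw [show (4 : ℝ) = 2 ^ 2 by norm_num, Real.log_pow]
    push_cast
    ring
  have h1 : (n : ℝ) * (Real.log t + Real.log n) ≤
      b * (2 * Real.log 2) + (a * Real.log (inv C) + b * (Real.log U + Real.log b)) := by
    have h2 : Real.log (inv A ^ n) ≤ Real.log (4 ^ b * (inv C ^ a * hermite b ^ b)) :=
      Real.log_le_log (by positivity) h
    rw [Real.log_pow, Real.log_mul (by positivity) (by positivity),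
      Real.log_mul (by positivity) (by positivity), Real.log_pow, Real.log_pow, Real.log_pow,
      e4] at h2
    have h5 : Real.log (hermite b) ≤ Real.log U + Real.log b := by
      rw [← Real.log_mul hU.ne' hb'.ne']
      exact Real.log_le_log hhb hherm
    have h6 : Real.log t + Real.log n ≤ Real.log (inv A) := by
      rw [← Real.log_mul ht.ne' hn'.ne']
      exact Real.log_le_log (by positivity) hinv
    have h7 := mul_le_mul_of_nonneg_left h6 hn'.le
    have h8 := mul_le_mul_of_nonneg_left h5 hb'.le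
    linarith
  have hent := entropy_eq hn hab
  have hmin := two_min_le (β := (b : ℝ) / n) (by positivity) (by
    rw [div_le_one hn']
    exact_mod_cast (by omega : b ≤ n))
  have habR : (a : ℝ) + b = n := by exact_mod_cast hab
  have h9 : -(4 * δ * n) * Real.log 2 ≤ n * Real.binEntropy ((b : ℝ) / n) - 2 * b * Real.log 2 := by
    have h10 : n * (2 * min (1 - (b : ℝ) / n) ((b : ℝ) / n) * Real.log 2) ≤
        n * Real.binEntropy ((b : ℝ) / n) := mul_le_mul_of_nonneg_left hmin hn'.le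
    have e1 : n * (2 * min (1 - (b : ℝ) / n) ((b : ℝ) / n) * Real.log 2) =
        2 * min (a : ℝ) b * Real.log 2 := by
      have e2 : 1 - (b : ℝ) / n = a / n := by
        rw [← habR]
        field_simp
        ring
      have e3 : min ((a : ℝ) / n) ((b : ℝ) / n) = min (a : ℝ) b / n := by
        rw [min_div_div_right hn'.le]
      rw [e2, e3]
      field_simp
    rw [e1] at h10
    have h11 : (b : ℝ) - 2 * δ * n ≤ min (a : ℝ) b := by
      apply le_min
      · linarith
      · have : 0 ≤ δ * n := by positivity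
        linarith
    have h12 := mul_le_mul_of_nonneg_right h11 (mul_nonneg (by norm_num : (0 : ℝ) ≤ 2) hl2.le)
    linarith
  have h10 : (b : ℝ) * (Real.log U - Real.log t) ≤ n * (Real.log U - Real.log t) := by
    have : Real.log t ≤ Real.log U := Real.log_le_log ht htU
    exact mul_le_mul_of_nonneg_right (by linarith) (by linarith)
  rw [Real.log_div hU.ne' ht.ne', Real.log_div ht.ne' ht'.ne'] at hconst
  have h3' : (n : ℝ) ≤ 3 * a := by exact_mod_cast h3
  have hc0 : 0 ≤ 4 * δ * Real.log 2 + (Real.log U - Real.log t) := by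
    have : Real.log t ≤ Real.log U := Real.log_le_log ht htU
    have : 0 ≤ 4 * δ * Real.log 2 := by positivity
    linarith
  have h11 : (n : ℝ) * (4 * δ * Real.log 2 + (Real.log U - Real.log t)) ≤
      a * (Real.log t - Real.log t') := by
    calc (n : ℝ) * (4 * δ * Real.log 2 + (Real.log U - Real.log t)) ≤
        3 * a * (4 * δ * Real.log 2 + (Real.log U - Real.log t)) :=
          mul_le_mul_of_nonneg_right h3' hc0
      _ = a * (3 * (4 * δ * Real.log 2 + (Real.log U - Real.log t))) := by ring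
      _ ≤ _ := mul_le_mul_of_nonneg_left hconst ha'.le
  have h12 : (a : ℝ) * (Real.log t' + Real.log a) ≤ a * Real.log (inv C) := by
    have e1 : (n : ℝ) * Real.log t = a * Real.log t + b * Real.log t := by rw [← habR]; ring
    have e2 : (n : ℝ) * Real.log n = a * Real.log n + b * Real.log n := by
      nth_rewrite 1 [← habR]
      ring
    rw [hent] at h9
    nlinarith
  have h13 : Real.log t' + Real.log a ≤ Real.log (inv C) := le_of_mul_le_mul_left h12 ha'
  rw [← Real.log_mul ht'.ne' ha'.ne'] at h13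
  exact (Real.log_le_log_iff (by positivity) hCpos).1 h13

/-- involutions -/
theorem invol {δ : ℝ} (hδ : 0 < δ) : ∃ c : ℝ, 0 < c ∧ ∀ n : ℕ, 0 < n →
    ∀ A : Matrix (Fin n) (Fin n) ℝ, A.det ≠ 0 → EntropyBound A c → ∀ Q, IsAuto A Q → Q ^ 2 = 1 →
      ((1 - Q).rank : ℝ) ≤ δ * n ∨
      |((1 - Q).rank : ℝ) - n / 2| ≤ δ * n ∨ (1 - δ) * n ≤ (1 - Q).rank := by
  obtain ⟨m2, hm2, hK2⟩ := exists_min (fun β => Real.binEntropy β - 2 * min (1 - β) β * Real.log 2)
    (by
      have := Real.binEntropy_continuous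
      fun_prop) (Icc δ (1 - δ) ∩ {β | δ ≤ |β - 1 / 2|})
    (isCompact_Icc.inter_right (isClosed_le continuous_const (by fun_prop))) (by
      rintro x ⟨hx, hx2⟩
      have h2 : δ ≤ |x - 1 / 2| := hx2
      have h1 := two_min_lt (β := x) (by linarith [hx.1]) (by linarith [hx.2]) (by
        rintro rfl
        rw [sub_self, abs_zero] at h2
        linarith)
      linarith)
  refine ⟨m2 / 2, by positivity, fun n hn A hA hE Q hQ hQ2 => ?_⟩
  have hn' : (0 : ℝ) < n := by exact_mod_cast hn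
  by_contra hcon
  rw [not_or, not_or] at hcon
  obtain ⟨c1, c2, c3⟩ := hcon
  rw [not_le] at c1 c3
  have h2 : ((1 - Q).rank : ℝ) / n ∈ Icc δ (1 - δ) :=
    ⟨by rw [le_div_iff₀ hn']; exact c1.le, by rw [div_le_iff₀ hn']; exact c3.le⟩
  have h3 : δ ≤ |((1 - Q).rank : ℝ) / n - 1 / 2| := by
    rw [not_le] at c2
    have e : ((1 - Q).rank : ℝ) - n / 2 = (((1 - Q).rank : ℝ) / n - 1 / 2) * n := by
      field_simp
    rw [e, abs_mul, abs_of_pos hn'] at c2
    exact (lt_of_mul_lt_mul_right c2 hn'.le).le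
  have h4 := hE.prime hn hA Nat.prime_two hQ hQ2
  have h5 := hK2 _ ⟨h2, h3⟩
  rw [glue_two] at h4
  linarith

end Pool.Agent.U166.HD
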