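import Pool.Agent.U166.HD.Step

/-!
# The induction over the number of halvings
-/

set_option autoImplicit false

namespace Pool.Agent.U166.HD

open Matrix Module Set Filter Topology
open Pool.Agent.H160R3.Herm
open Pool.Agent.R834.HA
open Pool.Agent.U166.HC

/-- the data of the descent -/
def Phi {n : ℕ} {G : Type} [Group G] (ρ : G →* Matrix (Fin n) (Fin n) ℝ) (t : ℝ)
    (M : Subgroup G) : Prop :=
  ∃ (a : ℕ) (C : Matrix (Fin a) (Fin a) ℝ) (ρ' : G →* Matrix (Fin a) (Fin a) ℝ), 0 < a ∧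
    C.det ≠ 0 ∧ (∀ g, IsAuto C (ρ' g)) ∧ t * a ≤ inv C ∧ (∀ g ∈ M, ρ' g = 1) ∧
    ∀ H : Subgroup G, M ≤ H → finrank ℝ (fixed ρ' H) = finrank ℝ (fixed ρ H)

/-- the constants of the half step -/
theorem constants {L : ℝ} (hL0 : 0 < L) {η2 : ℝ} (hη2 : 0 < η2) (hη2L : η2 < L) :
    ∃ δ3 : ℝ, 0 < δ3 ∧ ∃ η0 : ℝ, 0 < η0 ∧ ∀ η : ℝ, 0 < η → η < η0 → η < L ∧
      ∀ δ : ℝ, δ ≤ δ3 → 3 * (4 * δ * Real.log 2 + Real.log ((L + η) / (L - η))) ≤
        Real.log ((L - η) / (L - η2)) := by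
  have hl2 : 0 < Real.log 2 := Real.log_pos (by norm_num)
  have hκ : 0 < Real.log (L / (L - η2)) := by
    apply Real.log_pos
    rw [one_lt_div (by linarith)]
    linarith
  set κ := Real.log (L / (L - η2)) with hκd
  have hcont : ContinuousAt (fun x : ℝ => Real.log ((L - x) / (L - η2)) -
      3 * Real.log ((L + x) / (L - x))) 0 := by
    apply ContinuousAt.sub
    · apply ContinuousAt.log
      · exact (continuousAt_const.sub continuousAt_id).div continuousAt_const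
          (sub_pos.2 hη2L).ne'
      · simp only [sub_zero]
        exact (div_pos hL0 (by linarith)).ne'
    · apply ContinuousAt.mul continuousAt_const
      apply ContinuousAt.log
      · exact (continuousAt_const.add continuousAt_id).div (continuousAt_const.sub continuousAt_id)
          (by simp; exact hL0.ne')
      · simp only [add_zero, sub_zero]
        exact (div_pos hL0 hL0).ne'
  have h1 := hcont.tendsto
  simp only [add_zero, sub_zero, div_self hL0.ne', Real.log_one, mul_zero] at h1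
  have h2 : ∀ᶠ x in 𝓝 (0 : ℝ), κ / 2 < Real.log ((L - x) / (L - η2)) -
      3 * Real.log ((L + x) / (L - x)) := h1.eventually (lt_mem_nhds (by linarith))
  obtain ⟨s, hs, hball⟩ := Metric.eventually_nhds_iff.1 h2
  refine ⟨κ / (24 * Real.log 2), by positivity, min s L, lt_min hs hL0, fun η hη hη0 => ?_⟩
  have hηs : η < s := lt_of_lt_of_le hη0 (min_le_left _ _)
  have hηL : η < L := lt_of_lt_of_le hη0 (min_le_right _ _)
  refine ⟨hηL, fun δ hδ => ?_⟩
  have h3 := hball (y := η) (by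
    rw [Real.dist_eq, sub_zero, abs_of_pos hη]
    exact hηs)
  have h4 : 12 * δ * Real.log 2 ≤ κ / 2 := by
    have := mul_le_mul_of_nonneg_right hδ (by positivity : 0 ≤ 12 * Real.log 2)
    have e : κ / (24 * Real.log 2) * (12 * Real.log 2) = κ / 2 := by
      field_simp
      ring
    rw [e] at this
    linarith
  linarith

theorem step {L : ℝ} (hL : ∀ x : ℝ, 0 < x → ∀ᶠ m : ℕ in atTop, ratio m ≤ L + x) (hL0 : 0 < L) {r : ℕ} (h : Lev L r) :
    Lev L (r + 1) := by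
  intro δ hδ
  -- the constants
  obtain ⟨η2', hη2', n2, h2⟩ := h (δ / 4) (by positivity)
  obtain ⟨η2, hη2, hη2L, hη2le⟩ : ∃ η2 : ℝ, 0 < η2 ∧ η2 < L ∧ η2 ≤ η2' :=
    ⟨min η2' (L / 2), lt_min hη2' (by positivity),
      lt_of_le_of_lt (min_le_right _ _) (by linarith), min_le_left _ _⟩
  obtain ⟨δ0, hδ0, η0, hη0, hconst⟩ := constants hL0 hη2 hη2L
  obtain ⟨δ3, hδ3, hδ3a, hδ3b, hδ3c, hδ3d⟩ : ∃ δ3 : ℝ, 0 < δ3 ∧ δ3 ≤ δ0 ∧ δ3 ≤ δ / 8 ∧
      δ3 ≤ 1 / 40 ∧ δ3 ≤ L / 8 :=
    ⟨min (min δ0 (δ / 8)) (min (1 / 40) (L / 8)), by positivity,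
      (min_le_left _ _).trans (min_le_left _ _), (min_le_left _ _).trans (min_le_right _ _),
      (min_le_right _ _).trans (min_le_left _ _), (min_le_right _ _).trans (min_le_right _ _)⟩
  obtain ⟨c1, hc1, hgap⟩ := gap hδ3 (by linarith)
  obtain ⟨c3, hc3, hinvol⟩ := invol hδ3
  obtain ⟨ηe, hηe, hηeL, ne, hne, hent⟩ := ent_of_upper hL hL0 (lt_min hc1 hc3)
  obtain ⟨η, hη, hηa, hηb, hηδ⟩ : ∃ η : ℝ, 0 < η ∧ η < η0 ∧ η ≤ ηe ∧ η ≤ δ :=
    ⟨min (η0 / 2) (min ηe δ), lt_min (by positivity) (lt_min hηe hδ),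
      lt_of_le_of_lt (min_le_left _ _) (by linarith), (min_le_right _ _).trans (min_le_left _ _),
      (min_le_right _ _).trans (min_le_right _ _)⟩
  obtain ⟨hηL, hconst'⟩ := hconst η hη hηa
  have hconst3 := hconst' δ3 hδ3a
  set t := L - η with ht
  have htpos : 0 < t := by linarith
  have htL : L / 2 ≤ t := by linarith
  have hU : ∀ᶠ m : ℕ in atTop, ratio m ≤ L + η := hL η hη
  obtain ⟨m0, hm0⟩ := eventually_atTop.1 hU
  have hentC : ∀ n ≥ ne, ∀ A : Matrix (Fin n) (Fin n) ℝ, A.det ≠ 0 → t * n ≤ inv A →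
      EntropyBound A (min c1 c3) := by
    intro n hn A hA hinv
    refine hent n hn A hA (le_trans ?_ hinv)
    exact mul_le_mul_of_nonneg_right (by linarith) (Nat.cast_nonneg n)
  have hmono : ∀ {n : ℕ} {A : Matrix (Fin n) (Fin n) ℝ} {c c' : ℝ}, c ≤ c' → EntropyBound A c →
      EntropyBound A c' := fun hcc hE b k hs => (hE b k hs).trans (by linarith)
  refine ⟨η, hη, 4 * (ne + n2 + m0 + 1), fun n hn A hA hinv G _ _ hG ρ hρ => ?_⟩
  have hnpos : 0 < n := by omega
  have hn' : (0 : ℝ) < n := by exact_mod_cast hnpos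
  have hEA := hentC n (by omega) A hA hinv
  obtain ⟨-, hQ, -⟩ := hgap n hnpos A hA (hmono (min_le_left _ _) hEA)
  obtain ⟨N, -, -, -, hNH⟩ := groups hnpos hA hδ3 (by linarith) hQ ρ hρ
  -- a maximal normal subgroup with a descent
  obtain ⟨M, hM⟩ : ∃ M, Maximal (fun M : Subgroup G => M.Normal ∧ M ≤ N ∧ Phi ρ t M) M := by
    have h1 : ({M : Subgroup G | M.Normal ∧ M ≤ N ∧ Phi ρ t M}).Nonempty := by
      refine ⟨⊥, inferInstance, bot_le, n, A, ρ, hnpos, hA, hρ, hinv, ?_, fun H _ => rfl⟩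
      intro g hg
      rw [Subgroup.mem_bot.1 hg, map_one]
    exact (Set.toFinite _).exists_maximal h1
  obtain ⟨⟨hMn, hMN, a, C, ρ', ha, hC, hρ', hinvC, hMtriv, hMfix⟩, hmax⟩ := hM
  have ha' : (0 : ℝ) < a := by exact_mod_cast ha
  have haM : finrank ℝ (fixed ρ M) = a := by
    rw [← hMfix M le_rfl]
    exact finrank_fixed_eq ρ' M hMtriv
  have halow : (1 - 2 * δ3) * n ≤ a := by
    have := (hNH M).1 hMN
    rwa [haM] at this
  have han : (a : ℝ) ≤ n := by
    have := finrank_fixed_le ρ M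
    rw [haM] at this
    exact_mod_cast this
  have hδn : 0 ≤ δ3 * n := by positivity
  have hδa : δ3 * a ≤ δ3 * n := mul_le_mul_of_nonneg_left han hδ3.le
  have haN : (19 / 20 : ℝ) * n ≤ a :=
    (mul_le_mul_of_nonneg_right (by linarith) hn'.le).trans halow
  have hane : ne ≤ a := by
    have h1 : ((4 * (ne + n2 + m0 + 1) : ℕ) : ℝ) ≤ n := by exact_mod_cast hn
    have h2 : (ne : ℝ) ≤ a := by
      push_cast at h1
      have h3 : (0 : ℝ) ≤ ne := Nat.cast_nonneg _
      have h4 : (0 : ℝ) ≤ n2 := Nat.cast_nonneg _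
      have h5 : (0 : ℝ) ≤ m0 := Nat.cast_nonneg _
      linarith
    exact_mod_cast h2
  by_cases hMtop : M = ⊤
  · right
    refine ⟨?_, 0, ?_⟩
    · rw [← hMtop, haM]
      refine le_trans ?_ (hinvC.trans (le_hermite ha C hC))
      exact mul_le_mul_of_nonneg_right (by linarith) ha'.le
    rw [← hMtop, haM, pow_zero, one_mul, abs_le]
    have h3 : δ3 * n ≤ δ / 8 * n := mul_le_mul_of_nonneg_right hδ3b hn'.le
    have h4 : 0 ≤ δ * n := by positivity
    constructor <;> linarith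
  obtain ⟨z, hzM, hzz, hzc⟩ := central hG M hMn hMtop
  set P := ρ' z with hP
  have hPP : P * P = 1 := by rw [hP, ← map_mul, hMtriv _ hzz]
  have hcomm : ∀ g, P * ρ' g = ρ' g * P := by
    intro g
    have h1 : z * g = z * g * z⁻¹ * g⁻¹ * (g * z) := by group
    rw [hP, ← map_mul, h1, map_mul, hMtriv _ (hzc g), one_mul, map_mul]
  have hzH : ∀ x ∈ fixed ρ' (⊤ : Subgroup G), P.mulVec x = x := fun x hx => hx z (Subgroup.mem_top z)
  have hEC := hentC a hane C hC hinvC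
  rcases hinvol a ha C hC (hmono (min_le_right _ _) hEC) P (hρ' z) (by rw [sq, hPP]) with h3 | h3 | h3
  · -- the involution is almost trivial: contradiction
    exfalso
    have hlt : (1 - P).rank < a := by
      have : ((1 - P).rank : ℝ) < a := by
        refine lt_of_le_of_lt h3 ?_
        nlinarith
      exact_mod_cast this
    obtain ⟨a2, C2, O, ρ2, ha2, hab, hC2, hρ2, hOO, hfix, hPO, hρO, hineq⟩ :=
      transfer hC ρ' hρ' (hρ' z) hcomm hlt
    have hinv2 : t * a2 ≤ inv C2 := by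
      refine no_loss htpos ha2 hab hinvC ?_ hineq
      have h4 : 4 * ((1 - P).rank : ℝ) ≤ 4 * δ3 * a := by linarith
      refine h4.trans ?_
      exact mul_le_mul_of_nonneg_right (by linarith) ha'.le
    have hz2 : ρ2 z = 1 := by
      have h4 := hρO z
      rw [← hP, hPO] at h4
      calc ρ2 z = Oᵀ * O * ρ2 z := by rw [hOO, Matrix.one_mul]
        _ = Oᵀ * (O * ρ2 z) := by rw [Matrix.mul_assoc]
        _ = 1 := by rw [← h4, hOO]
    have hM2 : M ≤ ρ2.ker := by
      intro g hg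
      rw [MonoidHom.mem_ker]
      have h4 := hρO g
      rw [hMtriv g hg, Matrix.one_mul] at h4
      calc ρ2 g = Oᵀ * O * ρ2 g := by rw [hOO, Matrix.one_mul]
        _ = Oᵀ * (O * ρ2 g) := by rw [Matrix.mul_assoc]
        _ = 1 := by rw [← h4, hOO]
    have hfix2 : ∀ H : Subgroup G, ρ2.ker ≤ H →
        finrank ℝ (fixed ρ2 H) = finrank ℝ (fixed ρ H) := by
      intro H hH
      rw [← hMfix H (hM2.trans hH)]
      refine fixed_transfer hOO hρO H fun x hx => hfix x ?_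
      exact hx z (hH (MonoidHom.mem_ker.2 hz2))
    have hdim : finrank ℝ (fixed ρ ρ2.ker) = a2 := by
      rw [← hfix2 _ le_rfl]
      exact finrank_fixed_eq ρ2 _ fun g hg => MonoidHom.mem_ker.1 hg
    have hle : ρ2.ker ≤ N := by
      by_contra hcon
      have h4 := (hNH ρ2.ker).2 hcon
      rw [hdim] at h4
      have h5 : (a2 : ℝ) + (1 - P).rank = a := by exact_mod_cast hab
      have h6 : (1 / 2 + δ3) * n ≤ (21 / 40) * n := mul_le_mul_of_nonneg_right (by linarith) hn'.le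
      have h7 : δ3 * n ≤ 1 / 40 * n := mul_le_mul_of_nonneg_right hδ3c hn'.le
      linarith
    have h4 := hmax (y := ρ2.ker) ⟨inferInstance, hle, a2, C2, ρ2, ha2, hC2, hρ2, hinv2,
      fun g hg => MonoidHom.mem_ker.1 hg, hfix2⟩ hM2
    exact hzM (h4 (MonoidHom.mem_ker.2 hz2))
  · -- the involution halves the dimension
    rw [abs_le] at h3
    have hδa40 : δ3 * a ≤ 1 / 40 * a := mul_le_mul_of_nonneg_right hδ3c ha'.le
    have hlt : (1 - P).rank < a := by
      have : ((1 - P).rank : ℝ) < a := by linarith [h3.2]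
      exact_mod_cast this
    obtain ⟨a2, C2, O, ρ2, ha2, hab, hC2, hρ2, hOO, hfix, hPO, hρO, hineq⟩ :=
      transfer hC ρ' hρ' (hρ' z) hcomm hlt
    have hab' : (a2 : ℝ) + (1 - P).rank = a := by exact_mod_cast hab
    have hnbig : ((4 * (ne + n2 + m0 + 1) : ℕ) : ℝ) ≤ n := by exact_mod_cast hn
    push_cast at hnbig
    have p3 : (0 : ℝ) ≤ ne := Nat.cast_nonneg _
    have p4 : (0 : ℝ) ≤ n2 := Nat.cast_nonneg _
    have p5 : (0 : ℝ) ≤ m0 := Nat.cast_nonneg _
    have hbm : m0 ≤ (1 - P).rank := by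
      have : (m0 : ℝ) ≤ (1 - P).rank := by linarith [h3.1]
      exact_mod_cast this
    have hbpos : 0 < (1 - P).rank := by
      have : (0 : ℝ) < (1 - P).rank := by linarith [h3.1]
      exact_mod_cast this
    have hherm : hermite (1 - P).rank ≤ (L + η) * (1 - P).rank := by
      have h4 := hm0 _ hbm
      rw [ratio, div_le_iff₀ (by exact_mod_cast hbpos)] at h4
      exact h4
    have h3a : a ≤ 3 * a2 := by
      have : (a : ℝ) ≤ 3 * a2 := by linarith [h3.2]
      exact_mod_cast this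
    have hinv2 : (L - η2) * a2 ≤ inv C2 := by
      refine half_loss htpos (by linarith) (by linarith) hbpos ha2 hab h3a hδ3.le ?_ hherm hconst3
        hinvC hineq
      linarith [h3.2]
    have hinv2' : (L - η2') * a2 ≤ inv C2 :=
      (mul_le_mul_of_nonneg_right (by linarith) (Nat.cast_nonneg _)).trans hinv2
    have ha2n : n2 ≤ a2 := by
      have : (n2 : ℝ) ≤ a2 := by linarith [h3.2]
      exact_mod_cast this
    have h4 := h2 a2 ha2n C2 hC2 hinv2' G hG ρ2 hρ2
    have h5 : finrank ℝ (fixed ρ2 (⊤ : Subgroup G)) = finrank ℝ (fixed ρ (⊤ : Subgroup G)) := by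
      rw [← hMfix ⊤ le_top]
      exact fixed_transfer hOO hρO ⊤ fun x hx => hfix x (hzH x hx)
    rw [h5] at h4
    -- the numbers
    have hclose : |(a2 : ℝ) - 1 / 2 * n| ≤ δ / 4 * n := by
      rw [abs_le]
      have h6 : δ3 * n ≤ δ / 8 * n := mul_le_mul_of_nonneg_right hδ3b hn'.le
      constructor
      · linarith [h3.2]
      · linarith [h3.1]
    rw [abs_le] at hclose
    have ha2n' : (a2 : ℝ) ≤ n := by
      have : (0 : ℝ) ≤ (1 - P).rank := Nat.cast_nonneg _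
      linarith
    have h7 : δ / 4 * a2 ≤ δ / 4 * n := mul_le_mul_of_nonneg_left ha2n' (by positivity)
    have hpow : ∀ k : ℕ, (0 : ℝ) ≤ (1 / 2) ^ k ∧ ((1 / 2 : ℝ)) ^ k ≤ 1 := fun k =>
      ⟨by positivity, pow_le_one₀ (by norm_num) (by norm_num)⟩
    rcases h4 with h4 | ⟨h4h, k, h4⟩
    · left
      have h8 : (1 / 2 : ℝ) ^ r * a2 ≤ (1 / 2) ^ r * (1 / 2 * n + δ / 4 * n) :=
        mul_le_mul_of_nonneg_left (by linarith [hclose.2]) (hpow r).1
      have h9 : (1 / 2 : ℝ) ^ r * (δ / 4 * n) ≤ 1 * (δ / 4 * n) :=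
        mul_le_mul_of_nonneg_right (hpow r).2 (by positivity)
      have h10 : 0 ≤ δ * n := by positivity
      rw [pow_succ]
      linarith
    · right
      refine ⟨le_trans (mul_le_mul_of_nonneg_right (by linarith) (Nat.cast_nonneg _)) h4h,
        k + 1, ?_⟩
      rw [abs_le] at h4 ⊢
      have h8 : (1 / 2 : ℝ) ^ k * a2 ≤ (1 / 2) ^ k * (1 / 2 * n + δ / 4 * n) :=
        mul_le_mul_of_nonneg_left (by linarith [hclose.2]) (hpow k).1
      have h8' : (1 / 2 : ℝ) ^ k * (1 / 2 * n - δ / 4 * n) ≤ (1 / 2) ^ k * a2 :=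
        mul_le_mul_of_nonneg_left (by linarith [hclose.1]) (hpow k).1
      have h9 : (1 / 2 : ℝ) ^ k * (δ / 4 * n) ≤ 1 * (δ / 4 * n) :=
        mul_le_mul_of_nonneg_right (hpow k).2 (by positivity)
      have h10 : 0 ≤ δ * n := by positivity
      rw [pow_succ]
      constructor
      · linarith [h4.1]
      · linarith [h4.2]
  · -- the involution is almost `-1`
    left
    have h4 := fixed_le ρ' (⊤ : Subgroup G) (Subgroup.mem_top z)
    rw [hMfix ⊤ le_top] at h4
    have h5 : (finrank ℝ (fixed ρ (⊤ : Subgroup G)) : ℝ) + (1 - P).rank ≤ a := by exact_mod_cast h4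
    have h6 : δ3 * n ≤ δ / 8 * n := mul_le_mul_of_nonneg_right hδ3b hn'.le
    have h7 : 0 ≤ ((1 / 2 : ℝ)) ^ (r + 1) * n := by positivity
    have h8 : 0 ≤ δ * n := by positivity
    linarith

theorem lev {L : ℝ} (hL : ∀ x : ℝ, 0 < x → ∀ᶠ m : ℕ in atTop, ratio m ≤ L + x) (hL0 : 0 < L) (r : ℕ) : Lev L r := by
  induction r with
  | zero => exact lev_zero L
  | succ r ih => exact step hL hL0 ih

/-- **The dimension of the space of the fixed vectors of a finite 2-group.** -/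
theorem two_groups {L : ℝ} (hL : ∀ x : ℝ, 0 < x → ∀ᶠ m : ℕ in atTop, ratio m ≤ L + x) (hL0 : 0 < L) {δ : ℝ} (hδ : 0 < δ) :
    ∃ η : ℝ, 0 < η ∧ ∃ n0 : ℕ, ∀ n ≥ n0, ∀ A : Matrix (Fin n) (Fin n) ℝ, A.det ≠ 0 →
      (L - η) * n ≤ inv A → ∀ (G : Type) [Group G] [Finite G], IsPGroup 2 G →
      ∀ ρ : G →* Matrix (Fin n) (Fin n) ℝ, (∀ g, IsAuto A (ρ g)) →
        (finrank ℝ (fixed ρ (⊤ : Subgroup G)) : ℝ) ≤ δ * n ∨
        ((L - δ) * finrank ℝ (fixed ρ (⊤ : Subgroup G)) ≤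
            hermite (finrank ℝ (fixed ρ (⊤ : Subgroup G))) ∧
          ∃ k : ℕ, |(finrank ℝ (fixed ρ (⊤ : Subgroup G)) : ℝ) - (1 / 2) ^ k * n| ≤ δ * n) := by
  obtain ⟨r, hr⟩ := exists_pow_lt_of_lt_one (show (0 : ℝ) < δ / 2 by positivity)
    (show (1 / 2 : ℝ) < 1 by norm_num)
  obtain ⟨η, hη, n0, h⟩ := lev hL hL0 r (δ / 2) (by positivity)
  refine ⟨η, hη, n0, fun n hn A hA hinv G _ _ hG ρ hρ => ?_⟩
  have hn' : (0 : ℝ) ≤ n := Nat.cast_nonneg n
  rcases h n hn A hA hinv G hG ρ hρ with h1 | ⟨h0, k, h1⟩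
  · left
    refine h1.trans (mul_le_mul_of_nonneg_right ?_ hn')
    linarith
  · right
    refine ⟨le_trans (mul_le_mul_of_nonneg_right (by linarith) (Nat.cast_nonneg _)) h0,
      k, h1.trans (mul_le_mul_of_nonneg_right ?_ hn')⟩
    linarith

end Pool.Agent.U166.HD
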