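import Pool.Agent.U166.HD.Desc

/-!
# One halving
-/

set_option autoImplicit false

namespace Pool.Agent.U166.HD

open Matrix Module Set Filter Topology
open Pool.Agent.H160R3.Herm
open Pool.Agent.R834.HA
open Pool.Agent.U166.HC

theorem central {G : Type} [Group G] [Finite G] (hG : IsPGroup 2 G) (M : Subgroup G)
    (hN : M.Normal) (hM : M ≠ ⊤) :
    ∃ z : G, z ∉ M ∧ z * z ∈ M ∧ ∀ g, z * g * z⁻¹ * g⁻¹ ∈ M := by
  have : Fact (Nat.Prime 2) := ⟨Nat.prime_two⟩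
  have hQ : IsPGroup 2 (G ⧸ M) := hG.to_quotient M
  have hnt : Nontrivial (G ⧸ M) := by
    by_contra h
    rw [not_nontrivial_iff_subsingleton] at h
    exact hM (QuotientGroup.subgroup_eq_top_of_subsingleton M h)
  have hc : Nontrivial (Subgroup.center (G ⧸ M)) := hQ.center_nontrivial
  have hcp : IsPGroup 2 (Subgroup.center (G ⧸ M)) := hQ.to_subgroup _
  have h2 : 2 ∣ Nat.card (Subgroup.center (G ⧸ M)) := by
    obtain ⟨k, hk, hk2⟩ := hcp.nontrivial_iff_card.1 hc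
    rw [hk2]
    exact dvd_pow_self 2 hk.ne'
  obtain ⟨c, hc2⟩ := exists_prime_orderOf_dvd_card' (G := Subgroup.center (G ⧸ M)) 2 h2
  obtain ⟨z, hz⟩ := QuotientGroup.mk_surjective (c : G ⧸ M)
  have hc1 : c ≠ 1 := by
    rintro rfl
    rw [orderOf_one] at hc2
    omega
  have hcc : c * c = 1 := by
    have := pow_orderOf_eq_one c
    rwa [hc2, sq] at this
  refine ⟨z, ?_, ?_, ?_⟩
  · intro hzM
    apply hc1
    apply Subtype.ext
    rw [← hz]
    exact (QuotientGroup.eq_one_iff z).2 hzM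
  · rw [← QuotientGroup.eq_one_iff, QuotientGroup.mk_mul, hz]
    exact congrArg Subtype.val hcc
  · intro g
    rw [← QuotientGroup.eq_one_iff, QuotientGroup.mk_mul, QuotientGroup.mk_mul, QuotientGroup.mk_mul,
      QuotientGroup.mk_inv, QuotientGroup.mk_inv, hz]
    have h3 := (Subgroup.mem_center_iff.1 c.2) (g : G ⧸ M)
    rw [← h3]
    group

/-- the statement with `r` halvings -/
def Lev (L : ℝ) (r : ℕ) : Prop :=
  ∀ δ : ℝ, 0 < δ → ∃ η : ℝ, 0 < η ∧ ∃ n0 : ℕ, ∀ n ≥ n0, ∀ A : Matrix (Fin n) (Fin n) ℝ,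
    A.det ≠ 0 → (L - η) * n ≤ inv A → ∀ (G : Type) [Group G] [Finite G], IsPGroup 2 G →
    ∀ ρ : G →* Matrix (Fin n) (Fin n) ℝ, (∀ g, IsAuto A (ρ g)) →
      (finrank ℝ (fixed ρ (⊤ : Subgroup G)) : ℝ) ≤ ((1 / 2) ^ r + δ) * n ∨
      ((L - δ) * finrank ℝ (fixed ρ (⊤ : Subgroup G)) ≤
          hermite (finrank ℝ (fixed ρ (⊤ : Subgroup G))) ∧
        ∃ k : ℕ, |(finrank ℝ (fixed ρ (⊤ : Subgroup G)) : ℝ) - (1 / 2) ^ k * n| ≤ δ * n)

theorem finrank_fixed_le {n : ℕ} {G : Type} [Group G] (ρ : G →* Matrix (Fin n) (Fin n) ℝ)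
    (H : Subgroup G) : finrank ℝ (fixed ρ H) ≤ n := by
  have := Submodule.finrank_le (fixed ρ H)
  rwa [finrank_fin_fun] at this

theorem finrank_fixed_eq {n : ℕ} {G : Type} [Group G] (ρ : G →* Matrix (Fin n) (Fin n) ℝ)
    (H : Subgroup G) (h : ∀ g ∈ H, ρ g = 1) : finrank ℝ (fixed ρ H) = n := by
  have h1 : fixed ρ H = ⊤ := by
    rw [eq_top_iff]
    intro x _ g hg
    rw [h g hg, one_mulVec]
  rw [h1, finrank_top, finrank_fin_fun]

theorem lev_zero (L : ℝ) : Lev L 0 := by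
  intro δ hδ
  refine ⟨1, one_pos, 0, fun n _ A _ _ G _ _ _ ρ _ => Or.inl ?_⟩
  have h1 : (finrank ℝ (fixed ρ (⊤ : Subgroup G)) : ℝ) ≤ n := by
    exact_mod_cast finrank_fixed_le ρ ⊤
  have h2 : 0 ≤ δ * n := by positivity
  rw [pow_zero]
  linarith

end Pool.Agent.U166.HD
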