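import Pool.Agent.U166.HD.Basis

/-!
# Descent to the sublattice of the fixed vectors of an involution
-/

set_option autoImplicit false

namespace Pool.Agent.U166.HD

open Matrix Module
open Pool.Agent.H160R3.Herm
open Pool.Agent.R834.HA
open Pool.Agent.R834.HB (auto_transpose)
open Pool.Agent.U166.HC

theorem sqrt_gram {m : Type} [Fintype m] {b : ℕ} (E : Matrix m (Fin b) ℝ) :
    ∃ C : Matrix (Fin b) (Fin b) ℝ, Eᵀ * E = Cᵀ * C := by
  have hpos : (Eᵀ * E).PosSemidef := by
    have h1 := posSemidef_conjTranspose_mul_self E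
    have h2 : Eᴴ = Eᵀ := by
      ext i j
      simp
    rwa [h2] at h1
  open scoped MatrixOrder in
  obtain ⟨C, hC⟩ := CStarAlgebra.nonneg_iff_eq_star_mul_self.mp hpos.nonneg
  have hstar : star C = Cᵀ := by
    ext i j
    simp [Matrix.star_apply]
  rw [hstar] at hC
  exact ⟨C, hC⟩

theorem matrix_ext {m n : ℕ} {M N : Matrix (Fin m) (Fin n) ℝ} (h : ∀ x, M.mulVec x = N.mulVec x) :
    M = N := by
  apply Matrix.toLin'.injective
  apply LinearMap.ext
  intro x
  rw [toLin'_apply, toLin'_apply, h]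

theorem transfer {n : ℕ} {A : Matrix (Fin n) (Fin n) ℝ} (hA : A.det ≠ 0) {G : Type} [Group G]
    (ρ : G →* Matrix (Fin n) (Fin n) ℝ) (hρ : ∀ g, IsAuto A (ρ g))
    {P : Matrix (Fin n) (Fin n) ℝ} (hP : IsAuto A P)
    (hcomm : ∀ g, P * ρ g = ρ g * P) (hlt : (1 - P).rank < n) :
    ∃ (a : ℕ) (C : Matrix (Fin a) (Fin a) ℝ) (O : Matrix (Fin n) (Fin a) ℝ)
      (ρ' : G →* Matrix (Fin a) (Fin a) ℝ), 0 < a ∧ a + (1 - P).rank = n ∧ C.det ≠ 0 ∧
      (∀ g, IsAuto C (ρ' g)) ∧ Oᵀ * O = 1 ∧ (∀ x, P.mulVec x = x → O.mulVec (Oᵀ.mulVec x) = x) ∧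
      P * O = O ∧ (∀ g, ρ g * O = O * ρ' g) ∧
      inv A ^ n ≤ 4 ^ (1 - P).rank * (inv C ^ a * hermite (1 - P).rank ^ (1 - P).rank) := by
  classical
  have hN := auto_normal hP
  obtain ⟨hO_P, U, hU⟩ := hP
  have hF : (1 - P) * A = A * (1 - U).map (fun z : ℤ => (z : ℝ)) := by
    rw [← cst_apply, map_sub, map_one, sub_mul, mul_sub, one_mul, mul_one, hU, cst_apply]
  obtain ⟨h1, hr, hker, -⟩ := endo_ineq A (1 - P) hA (1 - U) hF hN.2
  have hdetb := (endo_det A (1 - P) hA (1 - U) hF hN.2).2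
  have hbd := (auto_bounds hA ⟨hO_P, U, hU⟩).1
  set T := Matrix.toLin' (1 - U) with hT
  have hTa : ∀ w, T w = (1 - U).mulVec w := fun w => by rw [hT, toLin'_apply]
  obtain ⟨a, b, e, K, R, hdet, hK0, hKall, hR, hKinj, hRinj, hb⟩ := endo_bases T
  rw [hr] at hb
  have hab : a + b = n := by
    have := Fintype.card_congr e
    simpa using this
  have ha : 0 < a := by omega
  let φ : ℤ →+* ℝ := Int.castRingHom ℝ
  set KR : Matrix (Fin n) (Fin a) ℝ := K.map φ with hKR
  set RR : Matrix (Fin n) (Fin b) ℝ := R.map φ with hRR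
  have hAu : IsUnit A := by
    rw [isUnit_iff_isUnit_det]
    exact isUnit_iff_ne_zero.2 hA
  have hGK : (Kᵀ * K).det ≠ 0 := gram_ne K hKinj
  have hGR : (Rᵀ * R).det ≠ 0 := gram_ne R hRinj
  have hGKR : (KRᵀ * KR).det ≠ 0 := by
    have h2 : KRᵀ * KR = (Kᵀ * K).map φ := by
      rw [Matrix.map_mul]
      rfl
    have h3 : ((Kᵀ * K).map φ).det = φ (Kᵀ * K).det := (φ.map_det _).symm
    rw [h2, h3]
    have h4 : φ (Kᵀ * K).det = (((Kᵀ * K).det : ℤ) : ℝ) := rfl
    rw [h4]
    exact_mod_cast hGK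
  have hGRR : (RRᵀ * RR).det ≠ 0 := by
    have h2 : RRᵀ * RR = (Rᵀ * R).map φ := by
      rw [Matrix.map_mul]
      rfl
    have h3 : ((Rᵀ * R).map φ).det = φ (Rᵀ * R).det := (φ.map_det _).symm
    rw [h2, h3]
    have h4 : φ (Rᵀ * R).det = (((Rᵀ * R).det : ℤ) : ℝ) := rfl
    rw [h4]
    exact_mod_cast hGR
  set E := A * KR with hE
  set E1 := A * RR with hE1
  have hEinj : ∀ w, E.mulVec w = 0 → w = 0 := by
    intro w hw
    rw [hE, ← mulVec_mulVec] at hw
    have h2 := Matrix.eq_zero_of_mulVec_eq_zero hA hw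
    have h3 : (KRᵀ * KR).mulVec w = 0 := by rw [← mulVec_mulVec, h2, mulVec_zero]
    exact Matrix.eq_zero_of_mulVec_eq_zero hGKR h3
  have hE1inj : ∀ w, E1.mulVec w = 0 → w = 0 := by
    intro w hw
    rw [hE1, ← mulVec_mulVec] at hw
    have h2 := Matrix.eq_zero_of_mulVec_eq_zero hA hw
    have h3 : (RRᵀ * RR).mulVec w = 0 := by rw [← mulVec_mulVec, h2, mulVec_zero]
    exact Matrix.eq_zero_of_mulVec_eq_zero hGRR h3
  have hG0 : (Eᵀ * E).det ≠ 0 := gram_ne E hEinj
  obtain ⟨C, hC⟩ := sqrt_gram E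
  have hCd : C.det ≠ 0 := by
    intro h0
    apply hG0
    rw [hC, det_mul, h0, mul_zero]
  have hCu : IsUnit C.det := isUnit_iff_ne_zero.2 hCd
  have hCC : C * C⁻¹ = 1 := mul_nonsing_inv _ hCu
  have hCC' : C⁻¹ * C = 1 := nonsing_inv_mul _ hCu
  obtain ⟨O, hOdef⟩ : ∃ O, O = E * C⁻¹ := ⟨_, rfl⟩
  have hOC : O * C = E := by rw [hOdef, Matrix.mul_assoc, hCC', Matrix.mul_one]
  have hOO : Oᵀ * O = 1 := by
    have e1 : Oᵀ * O = (C⁻¹)ᵀ * (Eᵀ * E) * C⁻¹ := by
      rw [hOdef, transpose_mul]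
      simp only [Matrix.mul_assoc]
    rw [e1, hC]
    have e2 : (C⁻¹)ᵀ * (Cᵀ * C) * C⁻¹ = (C * C⁻¹)ᵀ * (C * C⁻¹) := by
      rw [transpose_mul]
      simp only [Matrix.mul_assoc]
    rw [e2, hCC, transpose_one, Matrix.one_mul]
  -- the kernel
  have hUK : (1 - U) * K = 0 := by
    ext i j
    have h2 := congrFun (hK0 (Pi.single j 1)) i
    rw [hTa, mulVec_mulVec, mulVec_single_one] at h2
    exact h2
  have hFE : (1 - P) * E = 0 := by
    rw [hE, ← Matrix.mul_assoc, hF, Matrix.mul_assoc]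
    have h2 : (1 - U).map (fun z : ℤ => (z : ℝ)) * KR = ((1 - U) * K).map φ := by
      rw [Matrix.map_mul]
      rfl
    rw [h2, hUK]
    have h3 : (0 : Matrix (Fin n) (Fin a) ℤ).map φ = 0 := by
      ext i j
      simp
    rw [h3, Matrix.mul_zero]
  have hPE : P * E = E := by
    rw [Matrix.sub_mul, Matrix.one_mul, sub_eq_zero] at hFE
    exact hFE.symm
  have hPO : P * O = O := by rw [hOdef, ← Matrix.mul_assoc, hPE]
  have hfix : ∀ x, P.mulVec x = x → O.mulVec (Oᵀ.mulVec x) = x := by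
    intro x hx
    have h2 : LinearMap.range E.mulVecLin = LinearMap.ker (Matrix.toLin' (1 - P)) := by
      apply Submodule.eq_of_le_of_finrank_eq
      · rintro _ ⟨y, rfl⟩
        rw [LinearMap.mem_ker, toLin'_apply, mulVecLin_apply, mulVec_mulVec, hFE, zero_mulVec]
      · have h3 : finrank ℝ (LinearMap.range E.mulVecLin) = a := by
          have h4 := LinearMap.finrank_range_of_inj (f := E.mulVecLin) (by
            intro y z hyz
            have h5 : E.mulVec (y - z) = 0 := by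
              rw [mulVec_sub]
              exact sub_eq_zero.2 hyz
            exact sub_eq_zero.1 (hEinj _ h5))
          rw [h4, finrank_fin_fun]
        omega
    have h3 : x ∈ LinearMap.range E.mulVecLin := by
      rw [h2, LinearMap.mem_ker, toLin'_apply, sub_mulVec, one_mulVec, hx, sub_self]
    obtain ⟨y, rfl⟩ := h3
    rw [mulVecLin_apply]
    have e1 : E.mulVec y = O.mulVec (C.mulVec y) := by rw [mulVec_mulVec, hOC]
    rw [e1, mulVec_mulVec (M := Oᵀ), hOO, one_mulVec]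
  have hfixM : ∀ M : Matrix (Fin n) (Fin a) ℝ, P * M = M → O * (Oᵀ * M) = M := by
    intro M hM
    apply matrix_ext
    intro y
    have e1 : (O * (Oᵀ * M)).mulVec y = O.mulVec (Oᵀ.mulVec (M.mulVec y)) := by
      simp only [mulVec_mulVec, Matrix.mul_assoc]
    rw [e1]
    apply hfix
    rw [mulVec_mulVec, hM]
  have hρO : ∀ g, O * (Oᵀ * (ρ g * O)) = ρ g * O := by
    intro g
    apply hfixM
    rw [← Matrix.mul_assoc, hcomm, Matrix.mul_assoc, hPO]
  let ρ' : G →* Matrix (Fin a) (Fin a) ℝ :=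
    { toFun := fun g => Oᵀ * (ρ g * O)
      map_one' := by rw [map_one, Matrix.one_mul, hOO]
      map_mul' := by
        intro g h
        have e1 : Oᵀ * (ρ g * O) * (Oᵀ * (ρ h * O)) = Oᵀ * (ρ g * (O * (Oᵀ * (ρ h * O)))) := by
          simp only [Matrix.mul_assoc]
        rw [e1, hρO, map_mul]
        simp only [Matrix.mul_assoc] }
  have hρ' : ∀ g, ρ' g = Oᵀ * (ρ g * O) := fun g => rfl
  have hauto : ∀ g, IsAuto C (ρ' g) := by
    intro g
    obtain ⟨t1, t2⟩ := auto_transpose (hρ g).1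
    refine ⟨(Matrix.mem_orthogonalGroup_iff' (Fin a) ℝ).2 ?_, ?_⟩
    · have e1 : (ρ' g)ᵀ * ρ' g = 1 := by
        rw [hρ', transpose_mul, transpose_mul, transpose_transpose]
        have e2 : Oᵀ * (ρ g)ᵀ * O * (Oᵀ * (ρ g * O)) = Oᵀ * ((ρ g)ᵀ * (O * (Oᵀ * (ρ g * O)))) := by
          simp only [Matrix.mul_assoc]
        rw [e2, hρO, ← Matrix.mul_assoc (ρ g)ᵀ, t1, Matrix.one_mul, hOO]
      exact e1
    · obtain ⟨-, Ug, hUg⟩ := hρ g
      -- commutation of the integral matrices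
      have hcU : (1 - U) * Ug = Ug * (1 - U) := by
        apply cst_injective n
        apply hAu.mul_left_cancel
        rw [map_mul, map_mul]
        have e1 : A * (cst n (1 - U) * cst n Ug) = (1 - P) * ρ g * A := by
          rw [← Matrix.mul_assoc]
          have : A * cst n (1 - U) = (1 - P) * A := hF.symm
          rw [this, Matrix.mul_assoc, Matrix.mul_assoc]
          congr 1
          exact hUg.symm
        have e2 : A * (cst n Ug * cst n (1 - U)) = ρ g * (1 - P) * A := by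
          rw [← Matrix.mul_assoc]
          have : A * cst n Ug = ρ g * A := hUg.symm
          rw [this, Matrix.mul_assoc, Matrix.mul_assoc]
          congr 1
          exact hF.symm
        rw [e1, e2, mul_sub, sub_mul, one_mul, mul_one, hcomm]
      have hV : ∀ j, ∃ v, K.mulVec v = (Ug * K).mulVec (Pi.single j 1) := by
        intro j
        apply hKall
        rw [hTa, mulVec_mulVec, ← Matrix.mul_assoc, hcU, Matrix.mul_assoc, hUK, Matrix.mul_zero,
          zero_mulVec]
      choose v hv using hV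
      refine ⟨Matrix.of fun i j => v j i, ?_⟩
      have hKV : Ug * K = K * Matrix.of fun i j => v j i := by
        ext i j
        have h2 := congrFun (hv j) i
        rw [mulVec_single_one] at h2
        exact h2.symm
      have e1 : O * (ρ' g * C) = O * (C * (Matrix.of fun i j => v j i).map (fun z : ℤ => (z : ℝ))) := by
        rw [← Matrix.mul_assoc, ← Matrix.mul_assoc, hρ', hρO, hOC, Matrix.mul_assoc, hOC, hE,
          ← Matrix.mul_assoc, hUg, Matrix.mul_assoc, Matrix.mul_assoc]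
        congr 1
        have h2 : Ug.map (fun z : ℤ => (z : ℝ)) * KR = (Ug * K).map φ := by
          rw [Matrix.map_mul]
          rfl
        rw [h2, hKV, Matrix.map_mul]
        rfl
      have e2 := congrArg (fun M => Oᵀ * M) e1
      simp only [← Matrix.mul_assoc Oᵀ O, hOO, Matrix.one_mul] at e2
      exact e2
  refine ⟨a, C, O, ρ', ha, by omega, hCd, hauto, hOO, hfix, hPO, fun g => (hρO g).symm, ?_⟩
  -- the inequality
  set B : Matrix (Fin n) (Fin n) ℤ :=
    Matrix.of fun i x => Sum.elim (fun j => K i j) (fun j => R i j) (e.symm x) with hB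
  set D := A * B.map φ with hD
  have hDe : D.submatrix id e = Matrix.fromCols E E1 := by
    ext i x
    rcases x with j | j
    · rw [submatrix_apply, Matrix.fromCols_apply_inl, hD, hE, mul_apply, mul_apply]
      refine Finset.sum_congr rfl fun k _ => ?_
      simp [hB, hKR]
    · rw [submatrix_apply, Matrix.fromCols_apply_inr, hD, hE1, mul_apply, mul_apply]
      refine Finset.sum_congr rfl fun k _ => ?_
      simp [hB, hRR]
  have hGram : (Dᵀ * D).submatrix e e = Matrix.fromBlocks (Eᵀ * E) (Eᵀ * E1) (E1ᵀ * E) (E1ᵀ * E1) := by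
    have h2 : (Dᵀ * D).submatrix e e = (D.submatrix id e)ᵀ * D.submatrix id e := by
      ext x y
      rfl
    rw [h2, hDe, Matrix.transpose_fromCols, Matrix.fromRows_mul_fromCols]
  have hR' : ∀ j, ∃ z : Fin n → ℤ, (1 - U).mulVec z = fun i => R i j := by
    intro j
    obtain ⟨z, hz⟩ := hR j
    exact ⟨z, by rw [← hTa]; exact hz⟩
  choose z hz using hR'
  have hRZ : R = (1 - U) * Matrix.of fun i j => z j i := by
    ext i j
    have h2 := congrFun (hz j) i
    exact h2.symm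
  have hE1F : E1 = (1 - P) * (A * (Matrix.of fun i j => z j i).map φ) := by
    rw [← Matrix.mul_assoc, hF, Matrix.mul_assoc, hE1, hRR, hRZ, Matrix.map_mul]
    rfl
  have hFtE : (1 - P)ᵀ * E = 0 := by
    have h2 := (auto_transpose hO_P).1
    rw [transpose_sub, transpose_one, Matrix.sub_mul, Matrix.one_mul, sub_eq_zero]
    calc E = Pᵀ * P * E := by rw [h2, Matrix.one_mul]
      _ = Pᵀ * E := by rw [Matrix.mul_assoc, hPE]
  have hEE1 : Eᵀ * E1 = 0 := by
    rw [hE1F, ← Matrix.mul_assoc]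
    have h2 : Eᵀ * (1 - P) = ((1 - P)ᵀ * E)ᵀ := by
      rw [transpose_mul (1 - P)ᵀ E, transpose_transpose]
    rw [h2, hFtE, transpose_zero, Matrix.zero_mul]
  have hE1E : E1ᵀ * E = 0 := by
    have h2 : E1ᵀ * E = (Eᵀ * E1)ᵀ := by rw [transpose_mul Eᵀ E1, transpose_transpose]
    rw [h2, hEE1, transpose_zero]
  have hdetG : A.det ^ 2 * (B.det : ℝ) ^ 2 = C.det ^ 2 * (E1ᵀ * E1).det := by
    have h2 : ((Dᵀ * D).submatrix e e).det = (Eᵀ * E).det * (E1ᵀ * E1).det := by
      rw [hGram, hE1E, Matrix.det_fromBlocks_zero₂₁]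
    have h3 : (B.map φ).det = (B.det : ℝ) := (φ.map_det B).symm
    have h4 : (Dᵀ * D).det = A.det ^ 2 * (B.det : ℝ) ^ 2 := by
      have h5 : D.det = A.det * (B.det : ℝ) := by rw [hD, det_mul, h3]
      rw [det_mul Dᵀ D, det_transpose D, h5]
      ring
    have h5 : (Cᵀ * C).det = C.det ^ 2 := by rw [det_mul, det_transpose, sq]
    rw [det_submatrix_equiv_self, h4, hC, h5] at h2
    exact h2
  have hBk : (B.det : ℝ) ^ 2 = ((LinearMap.det (onRange T) : ℤ) : ℝ) ^ 2 := by
    have h2 : B.det ^ 2 = (LinearMap.det (onRange T)) ^ 2 := Int.natAbs_eq_iff_sq_eq.1 hdet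
    exact_mod_cast h2
  -- minima
  have hcast : ∀ (m : ℕ) (M : Matrix (Fin n) (Fin m) ℤ) (w : Fin m → ℤ),
      (fun j => ((M.mulVec w) j : ℝ)) = (M.map φ).mulVec (fun j => (w j : ℝ)) := by
    intro m M w
    funext j
    simp [mulVec, dotProduct, φ]
  have hminC : minSq A ≤ minSq C := by
    refine le_minSq ha C _ fun w hw => ?_
    have hKw : K.mulVec w ≠ 0 := fun h0 => hw (hKinj w h0)
    refine (minSq_le A _ hKw).trans (le_of_eq ?_)
    rw [hcast a K w, mulVec_mulVec, sum_sq, sum_sq, ← hC]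
  have hA1 : minSq A ^ a ≤ inv C ^ a * C.det ^ 2 := by
    rw [inv_pow ha hCd]
    exact pow_le_pow_left₀ (minSq_nonneg A) hminC a
  have hpos : (E1ᵀ * E1).PosDef := by
    have hinj : Function.Injective E1.mulVec := by
      intro x y hxy
      have h2 : E1.mulVec (x - y) = 0 := by
        rw [mulVec_sub]
        exact sub_eq_zero.2 hxy
      exact sub_eq_zero.1 (hE1inj _ h2)
    have h2 := PosDef.conjTranspose_mul_self E1 hinj
    have h3 : E1ᴴ = E1ᵀ := by
      ext i j
      simp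
    rwa [h3] at h2
  have hA2 : minSq A ^ b ≤ hermite b ^ b * (E1ᵀ * E1).det := by
    refine gram_fin _ hpos _ (minSq_nonneg A) fun w hw => ?_
    have hRw : R.mulVec w ≠ 0 := fun h0 => hw (hRinj w h0)
    refine (minSq_le A _ hRw).trans (le_of_eq ?_)
    rw [hcast b R w, mulVec_mulVec, sum_sq]
  have hn : 0 < n := by omega
  have hApos : 0 < A.det ^ 2 := by positivity
  have hk : ((LinearMap.det (onRange T) : ℤ) : ℝ) ^ 2 ≤ 4 ^ b := by
    rcases Nat.eq_zero_or_pos b with hb0 | hb0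
    · rw [← hb, hb0, pow_zero] at hdetb
      rw [hb0, pow_zero]
      exact hdetb
    · refine hdetb.trans ?_
      rw [← hb] at hbd ⊢
      have hb' : (0 : ℝ) < b := by exact_mod_cast hb0
      apply pow_le_pow_left₀ (div_nonneg (hs_nonneg (1 - P)) hb'.le)
      rw [div_le_iff₀ hb']
      exact hbd
  have hfinal : inv A ^ n * A.det ^ 2 ≤ 4 ^ b * (inv C ^ a * hermite b ^ b) * A.det ^ 2 := by
    have hh : 0 ≤ hermite b ^ b := (pow_self_pos b).le
    have hi : 0 ≤ inv C ^ a := pow_nonneg (inv_nonneg C) a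
    calc inv A ^ n * A.det ^ 2 = minSq A ^ a * minSq A ^ b := by
          rw [inv_pow hn hA, ← pow_add, hab]
      _ ≤ inv C ^ a * C.det ^ 2 * (hermite b ^ b * (E1ᵀ * E1).det) :=
          mul_le_mul hA1 hA2 (pow_nonneg (minSq_nonneg A) b) (mul_nonneg hi (sq_nonneg _))
      _ = inv C ^ a * hermite b ^ b * (C.det ^ 2 * (E1ᵀ * E1).det) := by ring
      _ = inv C ^ a * hermite b ^ b * (A.det ^ 2 * (B.det : ℝ) ^ 2) := by rw [hdetG]
      _ ≤ inv C ^ a * hermite b ^ b * (A.det ^ 2 * 4 ^ b) := by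
          apply mul_le_mul_of_nonneg_left _ (mul_nonneg hi hh)
          apply mul_le_mul_of_nonneg_left _ hApos.le
          rw [hBk]
          exact hk
      _ = _ := by ring
  rw [← hb]
  exact le_of_mul_le_mul_right hfinal hApos

end Pool.Agent.U166.HD
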